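import Pool.Agent.X100.Mx.Mixed
import Pool.Agent.TH498.HF.L1

/-!
# abc triples of small radical, of any height, in families
-/

set_option autoImplicit false

namespace Pool.Agent.X100.Mx

open Finset Polynomial Pool.Agent.W4.CF Pool.Agent.W4.VC Pool.Agent.TH498.KB Pool.Agent.TH498.HF

theorem hom_X (a b : ℤ) : hom (X : ℤ[X]) 1 a b = a := by
  rw [hom_one]
  simp

theorem hom_C1 (a b : ℤ) : hom (1 : ℤ[X]) 1 a b = b := by
  rw [hom_one, coeff_one, coeff_one]
  simp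

theorem hom_pow_sub (n : ℕ) (hn : 1 ≤ n) (a b : ℤ) :
    hom (X ^ n - 1 : ℤ[X]) n a b = a ^ n - b ^ n := by
  unfold hom
  have h1 : ∀ j ∈ range (n + 1), (X ^ n - 1 : ℤ[X]).coeff j * a ^ j * b ^ (n - j) =
      (if j = n then a ^ n else 0) - (if j = 0 then b ^ n else 0) := by
    intro j _
    rw [coeff_sub, coeff_X_pow, coeff_one]
    by_cases hj : j = n
    · subst hj
      have : j ≠ 0 := by omega
      simp [this]
    · by_cases hj0 : j = 0
      · subst hj0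
        simp [hj]
      · simp [hj, hj0]
  rw [sum_congr rfl h1, sum_sub_distrib, sum_ite_eq', sum_ite_eq']
  simp

/-- the radical of a product with the primes dividing `M` removed -/
theorem radp_le_rad {M : ℕ} {x y g : ℤ} (hy : y ≠ 0) (hg : g ∣ (M : ℤ)) (h : x ∣ g ^ 3 * y) :
    radp M x.natAbs ≤ ∏ p ∈ y.natAbs.primeFactors, p := by
  unfold radp
  refine Finset.prod_le_prod_of_subset_of_one_le' ?_ fun p hp _ =>
    (Nat.prime_of_mem_primeFactors hp).one_le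
  intro p hp
  obtain ⟨h1, h2⟩ := mem_filter.mp hp
  have hpp := Nat.prime_of_mem_primeFactors h1
  have hpx : (p : ℤ) ∣ x := Int.natCast_dvd.mpr (Nat.dvd_of_mem_primeFactors h1)
  have hpZ : Prime (p : ℤ) := Nat.prime_iff_prime_int.mp hpp
  refine Nat.mem_primeFactors.mpr ⟨hpp, ?_, Int.natAbs_ne_zero.mpr hy⟩
  rcases hpZ.dvd_or_dvd (hpx.trans h) with h3 | h3
  · exact absurd (Int.natCast_dvd_natCast.mp ((hpZ.dvd_of_dvd_pow h3).trans hg)) h2
  · exact Int.natCast_dvd.mp h3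

/-- triples in a family given by two forms -/
theorem triples {ι : Type} [Fintype ι] [DecidableEq ι] (A B : ℤ[X]) (n : ℕ) (hn : 1 ≤ n)
    (hA : A.natDegree ≤ n) (hB : B.natDegree ≤ n) (hlead : A.natDegree = n ∨ B.natDegree = n)
    (hcop : IsCoprime (A.map (Int.castRingHom ℚ)) (B.map (Int.castRingHom ℚ)))
    (f : ι → ℤ[X]) (d : ι → ℕ) (hf : ∀ i, (f i).natDegree ≤ d i) (hd1 : ∀ i, 1 ≤ d i)
    (hsq : Squarefree ((∏ i, f i).map (Int.castRingHom ℚ)))
    (hdeg : ∑ i, d i ≤ (∏ i, f i).natDegree + 1) (G : ℤ[X])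
    (hG : (∏ i, f i) * G = A * B * (A + B)) (hGd : G.natDegree + ∑ i, d i ≤ 3 * n)
    (h3 : 3 ≤ (univ.filter (fun k => d k = 1)).card) :
    ∃ (C : ℝ) (e : ℕ), 0 < C ∧ ∀ R : ℝ, 1 ≤ R → ∀ S : Finset (ℤ × ℤ),
      (∀ q ∈ S, IsCoprime q.1 q.2 ∧ q.1 * q.2 * (q.1 + q.2) ≠ 0 ∧
        (∃ s t : ℤ, IsCoprime s t ∧ q.1 * hom B n s t = q.2 * hom A n s t) ∧
        ((∏ p ∈ (q.1 * q.2 * (q.1 + q.2)).natAbs.primeFactors, p : ℕ) : ℝ) ≤ R) →
      (S.card : ℝ) ≤ C * R ^ ((2 : ℝ) / ((∑ k, wt (d k) : ℕ) : ℝ)) * (1 + Real.log R) ^ e := by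
  classical
  have hbez : ∃ M : ℕ, 1 ≤ M ∧ ∀ a b : ℤ, IsCoprime a b →
      ∀ x : ℤ, x ∣ hom A n a b → x ∣ hom B n a b → x ∣ M := by
    rcases hlead with h | h
    · obtain ⟨M, K, h1, -, h2⟩ := bez A B n n hn hn hA hB hcop (by
        rw [← h]
        intro h0
        have h1 : A = 0 := leadingCoeff_eq_zero.mp h0
        rw [h1, natDegree_zero] at h
        omega)
      exact ⟨M, h1, fun a b hab => (h2 a b hab).1⟩
    · obtain ⟨M, K, h1, -, h2⟩ := bez B A n n hn hn hB hA hcop.symm (by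
        rw [← h]
        intro h0
        have h1 : B = 0 := leadingCoeff_eq_zero.mp h0
        rw [h1, natDegree_zero] at h
        omega)
      exact ⟨M, h1, fun a b hab x x1 x2 => (h2 a b hab).1 x x2 x1⟩
  obtain ⟨M, hM, hbez⟩ := hbez
  have hle : (∏ i, f i).natDegree ≤ ∑ i, d i :=
    (natDegree_prod_le _ _).trans (Finset.sum_le_sum fun i _ => hf i)
  obtain ⟨C, e, hC, hmain⟩ := mixed f d hf hd1 ⟨hsq, hle, hdeg⟩ h3 M hM
  refine ⟨(2 * (M : ℝ) + 1) * C, e, by positivity, ?_⟩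
  intro R hR S hS
  have hex : ∀ q ∈ S, ∃ s t g : ℤ, IsCoprime s t ∧ g ∣ (M : ℤ) ∧ g ≠ 0 ∧
      hom A n s t = g * q.1 ∧ hom B n s t = g * q.2 := by
    intro q hq
    obtain ⟨h1, h2, ⟨s, t, hst, h4⟩, -⟩ := hS q hq
    have ha : q.1 ≠ 0 := left_ne_zero_of_mul (left_ne_zero_of_mul h2)
    have h5 : q.1 ∣ hom A n s t :=
      h1.dvd_of_dvd_mul_left (Dvd.intro _ h4)
    obtain ⟨g, hg⟩ := h5
    have h6 : hom B n s t = g * q.2 := by
      rw [hg] at h4
      have : q.1 * hom B n s t = q.1 * (g * q.2) := by rw [h4]; ring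
      exact mul_left_cancel₀ ha this
    have h7 : g ∣ (M : ℤ) := hbez s t hst g (by rw [hg]; exact Dvd.intro_left _ rfl)
      (by rw [h6]; exact Dvd.intro _ rfl)
    refine ⟨s, t, g, hst, h7, ?_, by rw [hg]; ring, h6⟩
    rintro rfl
    have : (M : ℤ) = 0 := zero_dvd_iff.mp h7
    omega
  choose! s t g hst hgM hg0 hgA hgB using hex
  let φ : ℤ × ℤ → ℤ × ℤ := fun q => (s q, t q)
  have hφ : ∀ x ∈ S.image φ, IsCoprime x.1 x.2 ∧
      hom (∏ k, f k) (∑ k, d k) x.1 x.2 ≠ 0 ∧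
      (radp M (hom (∏ k, f k) (∑ k, d k) x.1 x.2).natAbs : ℝ) ≤ R := by
    intro x hx
    obtain ⟨q, hq, rfl⟩ := mem_image.mp hx
    obtain ⟨h1, h2, -, h4⟩ := hS q hq
    have hmul := Pool.Agent.W505.VC.t_HOM.1
    have hAB : (A + B).natDegree ≤ n := (natDegree_add_le A B).trans (max_le hA hB)
    have e1 : hom (∏ k, f k) (∑ k, d k) (s q) (t q) *
        hom G (3 * n - ∑ k, d k) (s q) (t q) =
        g q ^ 3 * (q.1 * q.2 * (q.1 + q.2)) := by
      rw [← hmul _ _ _ _ hle (by omega : G.natDegree ≤ 3 * n - ∑ k, d k), hG]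
      have e2 : ∑ k, d k + (3 * n - ∑ k, d k) = n + n + n := by omega
      rw [e2, hmul _ _ _ _ (natDegree_mul_le.trans (add_le_add hA hB)) hAB,
        hmul _ _ _ _ hA hB, Pool.Agent.TH498.KB.hom_add, hgA q hq, hgB q hq]
      ring
    have hne : g q ^ 3 * (q.1 * q.2 * (q.1 + q.2)) ≠ 0 := mul_ne_zero (pow_ne_zero _ (hg0 q hq)) h2
    refine ⟨hst q hq, ?_, ?_⟩
    · intro h0
      change hom (∏ k, f k) (∑ k, d k) (s q) (t q) = 0 at h0
      rw [h0, zero_mul] at e1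
      exact hne e1.symm
    · refine le_trans ?_ h4
      exact_mod_cast radp_le_rad h2 (hgM q hq) (Dvd.intro _ e1)
  have hcard := hmain R hR (S.image φ) hφ
  have hgle : ∀ q ∈ S, g q ∈ Icc (-(M : ℤ)) M := by
    intro q hq
    have := Int.le_of_dvd (by omega : (0 : ℤ) < M) ((abs_dvd _ _).mpr (hgM q hq))
    rw [mem_Icc]
    exact abs_le.mp this
  have hinj : S.card ≤ ((S.image φ) ×ˢ (Icc (-(M : ℤ)) M)).card := by
    refine Finset.card_le_card_of_injOn (fun q => (φ q, g q)) ?_ ?_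
    · intro q hq
      have hq' : q ∈ S := hq
      rw [mem_coe, mem_product]
      exact ⟨mem_image_of_mem _ hq', hgle q hq'⟩
    · intro q hq q' hq' heq
      have hq1 : q ∈ S := hq
      have hq2 : q' ∈ S := hq'
      simp only [Prod.mk.injEq, φ] at heq
      obtain ⟨⟨i1, i2⟩, i3⟩ := heq
      have a1 := hgA q hq1
      have a2 := hgA q' hq2
      have b1 := hgB q hq1
      have b2 := hgB q' hq2
      rw [i1, i2, i3, a2] at a1
      rw [i1, i2, i3, b2] at b1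
      exact Prod.ext (mul_left_cancel₀ (hg0 q' hq2) a1).symm
        (mul_left_cancel₀ (hg0 q' hq2) b1).symm
  rw [card_product, Int.card_Icc] at hinj
  have h1 : (((M : ℤ) + 1 - -(M : ℤ)).toNat : ℝ) = 2 * (M : ℝ) + 1 := by
    have : ((M : ℤ) + 1 - -(M : ℤ)).toNat = 2 * M + 1 := by omega
    rw [this]
    push_cast
    ring
  calc (S.card : ℝ) ≤ (((S.image φ).card * ((M : ℤ) + 1 - -(M : ℤ)).toNat : ℕ) : ℝ) := by
        exact_mod_cast hinj
    _ = ((S.image φ).card : ℝ) * (2 * (M : ℝ) + 1) := by rw [Nat.cast_mul, h1]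
    _ ≤ (C * R ^ ((2 : ℝ) / ((∑ k, wt (d k) : ℕ) : ℝ)) * (1 + Real.log R) ^ e) *
        (2 * (M : ℝ) + 1) := mul_le_mul_of_nonneg_right hcard (by positivity)
    _ = _ := by ring

/-- two powers with the same exponent -/
theorem powers (n : ℕ) (hn : 1 ≤ n) :
    ∃ (C : ℝ) (e : ℕ), 0 < C ∧ ∀ R : ℝ, 1 ≤ R → ∀ S : Finset (ℤ × ℤ),
      (∀ p ∈ S, IsCoprime p.1 p.2 ∧ p.1 * p.2 * (p.1 ^ n - p.2 ^ n) ≠ 0 ∧
        ((∏ q ∈ (p.1 * p.2 * (p.1 ^ n - p.2 ^ n)).natAbs.primeFactors, q : ℕ) : ℝ) ≤ R) →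
      (S.card : ℝ) ≤ C * R ^ ((2 : ℝ) / ((2 + ∑ δ ∈ n.divisors, wt (Nat.totient δ) : ℕ) : ℝ)) *
        (1 + Real.log R) ^ e := by
  classical
  let F : Bool ⊕ {δ // δ ∈ n.divisors} → ℤ[X] :=
    Sum.elim (fun b => if b then X else 1) (fun δ => cyclotomic (δ : ℕ) ℤ)
  let d : Bool ⊕ {δ // δ ∈ n.divisors} → ℕ := Sum.elim (fun _ => 1) (fun δ => Nat.totient (δ : ℕ))
  have hprod : ∏ k, F k = X * 1 * (X ^ n - 1) := by
    rw [Fintype.prod_sum_type, Fintype.prod_bool]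
    simp only [F, Sum.elim_inl, Sum.elim_inr, if_true, Bool.false_eq_true, if_false]
    rw [prod_coe_sort n.divisors (fun δ => cyclotomic δ ℤ),
      prod_cyclotomic_eq_X_pow_sub_one (by omega)]
  have hsum : ∑ k, d k = 1 + 1 + n := by
    rw [Fintype.sum_sum_type, Fintype.sum_bool]
    simp only [d, Sum.elim_inl, Sum.elim_inr]
    rw [sum_coe_sort n.divisors (fun δ => Nat.totient δ), Nat.sum_totient]
  have hwt : ∑ k, wt (d k) = 2 + ∑ δ ∈ n.divisors, wt (Nat.totient δ) := by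
    rw [Fintype.sum_sum_type, Fintype.sum_bool]
    simp only [d, Sum.elim_inl, Sum.elim_inr]
    rw [sum_coe_sort n.divisors (fun δ => wt (Nat.totient δ))]
    rfl
  have hd : ∀ k, (F k).natDegree ≤ d k := by
    rintro (b | δ)
    · simp only [F, d, Sum.elim_inl]
      cases b <;> simp
    · simp only [F, d, Sum.elim_inr]
      rw [natDegree_cyclotomic]
  have hd1 : ∀ k, 1 ≤ d k := by
    rintro (b | δ)
    · simp [d]
    · simp only [d, Sum.elim_inr]
      exact Nat.totient_pos.mpr (Nat.pos_of_mem_divisors δ.2)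
  have hdegn : (X ^ n - 1 : ℤ[X]).natDegree = n := natDegree_X_pow_sub_C
  have hmon : (X ^ n - 1 : ℤ[X]).Monic := monic_X_pow_sub_C 1 (by omega)
  have hsq : Sqf (∏ k, F k) (∑ k, d k) := by
    rw [hprod, hsum]
    refine ⟨?_, ?_, ?_⟩
    · rw [mul_one, Polynomial.map_mul, map_X, Polynomial.map_sub, Polynomial.map_pow, map_X,
        Polynomial.map_one]
      have h1 : (X ^ n - 1 : ℚ[X]).Separable := X_pow_sub_one_separable_iff.mpr (by
        exact_mod_cast (by omega : n ≠ 0))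
      refine (Polynomial.Separable.mul separable_X h1 ?_).squarefree
      refine ⟨X ^ (n - 1), -1, ?_⟩
      have : (X : ℚ[X]) ^ (n - 1) * X = X ^ n := by
        rw [← pow_succ]
        congr 1
        omega
      rw [this]
      ring
    · rw [mul_one, natDegree_mul X_ne_zero hmon.ne_zero, natDegree_X, hdegn]
      omega
    · rw [mul_one, natDegree_mul X_ne_zero hmon.ne_zero, natDegree_X, hdegn]
      omega
  have h3 : 3 ≤ (univ.filter (fun k => d k = 1)).card := by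
    have h1 : (1 : ℕ) ∈ n.divisors := Nat.one_mem_divisors.mpr (by omega)
    have hsub : ({Sum.inl true, Sum.inl false, Sum.inr ⟨1, h1⟩} :
        Finset (Bool ⊕ {δ // δ ∈ n.divisors})) ⊆ univ.filter (fun k => d k = 1) := by
      intro k hk
      rw [mem_filter]
      refine ⟨mem_univ k, ?_⟩
      rw [mem_insert, mem_insert, mem_singleton] at hk
      rcases hk with rfl | rfl | rfl <;> simp [d]
    refine le_trans (le_of_eq ?_) (card_le_card hsub)
    rw [card_insert_of_notMem, card_insert_of_notMem, card_singleton]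
    · simp
    · simp
  obtain ⟨C, e, hC, h⟩ := mixed F d hd hd1 hsq h3 1 le_rfl
  rw [hwt] at h
  refine ⟨C, e, hC, fun R hR S hS => h R hR S fun p hp => ?_⟩
  obtain ⟨h1, h2, h4⟩ := hS p hp
  have hmul := Pool.Agent.W505.VC.t_HOM.1
  have hval : hom (∏ k, F k) (∑ k, d k) p.1 p.2 = p.1 * p.2 * (p.1 ^ n - p.2 ^ n) := by
    rw [hprod, hsum, hmul _ _ _ _ (by rw [mul_one, natDegree_X]; omega) hdegn.le,
      hmul _ _ _ _ natDegree_X.le (by rw [natDegree_one]; omega), hom_X, hom_C1,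
      hom_pow_sub n hn]
  refine ⟨h1, by rw [hval]; exact h2, ?_⟩
  rw [hval]
  refine le_trans ?_ h4
  unfold radp
  exact_mod_cast Finset.prod_le_prod_of_subset_of_one_le' (filter_subset _ _) fun p hp _ =>
    (Nat.prime_of_mem_primeFactors hp).one_le

end Pool.Agent.X100.Mx
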