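import Pool.Agent.TH498.HF.BF
import Pool.Agent.Y679.Kf.Line

/-!
# Pairs of any height where the radical of a form is small: three or more linear factors
-/

set_option autoImplicit false

namespace Pool.Agent.X100.Mx

open Finset Polynomial Pool.Agent.W4.CF Pool.Agent.W4.VC Pool.Agent.TH498.KB Pool.Agent.TH498.HF
open Pool.Agent.TH867.SQ (lr)
open Pool.Agent.TH867.QF (Fm va ev Pt)

/-- the weight of a factor of degree `d` -/
def wt (d : ℕ) : ℕ := if d ≤ 2 then 1 else 2

/-- the linear programme -/
theorem lp {ι : Type} [Fintype ι] [DecidableEq ι] (d : ι → ℕ) (hd1 : ∀ k, 1 ≤ d k)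
    (h3 : 1 ≤ (univ.filter (fun k => d k = 1)).card) (y : ι → ℝ) (τ : ℝ)
    (hJ : ∀ J : Finset ι, 3 ≤ ∑ k ∈ J, d k → τ < ∑ k ∈ J, y k)
    (hL : ((univ.filter (fun k => d k = 1)).card : ℝ) * τ / 2 <
      ∑ k ∈ univ.filter (fun k => d k = 1), y k) :
    ((∑ k, wt (d k) : ℕ) : ℝ) * τ / 2 < ∑ k, y k := by
  have key : 0 < ∑ k, (y k - (wt (d k) : ℝ) * τ / 2) := by
    have hG : ∀ k, 3 ≤ d k → 0 ≤ y k - (wt (d k) : ℝ) * τ / 2 := by
      intro k hk
      have h1 := hJ {k} (by rw [sum_singleton]; exact hk)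
      rw [sum_singleton] at h1
      have h2 : wt (d k) = 2 := by
        unfold wt
        rw [if_neg (by omega)]
      rw [h2]
      push_cast
      linarith
    have hw : ∀ k, d k ≤ 2 → (wt (d k) : ℝ) = 1 := by
      intro k hk
      unfold wt
      rw [if_pos hk]
      norm_num
    by_cases hA : ∀ k, d k = 2 → τ / 2 ≤ y k
    · rw [← sum_filter_add_sum_filter_not univ (fun k => d k = 1)]
      have h1 : 0 < ∑ k ∈ univ.filter (fun k => d k = 1), (y k - (wt (d k) : ℝ) * τ / 2) := by
        have e : ∑ k ∈ univ.filter (fun k => d k = 1), (y k - (wt (d k) : ℝ) * τ / 2) =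
            ∑ k ∈ univ.filter (fun k => d k = 1), (y k - τ / 2) := by
          refine sum_congr rfl fun k hk => ?_
          rw [hw k (by rw [(mem_filter.mp hk).2]; omega)]
          ring
        rw [e, sum_sub_distrib, sum_const, nsmul_eq_mul]
        linarith
      have h2 : 0 ≤ ∑ k ∈ univ.filter (fun k => ¬ d k = 1), (y k - (wt (d k) : ℝ) * τ / 2) := by
        refine sum_nonneg fun k hk => ?_
        have hk1 := (mem_filter.mp hk).2
        have hk2 := hd1 k
        rcases Nat.lt_or_ge (d k) 3 with h | h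
        · have hk3 : d k = 2 := by omega
          rw [hw k (by omega)]
          have := hA k hk3
          linarith
        · exact hG k h
      linarith
    · push Not at hA
      obtain ⟨k0, hk0, hy0⟩ := hA
      obtain ⟨l0, hl0⟩ := card_pos.mp h3
      have hl0' : d l0 = 1 := (mem_filter.mp hl0).2
      have hne : l0 ≠ k0 := by
        rintro rfl
        omega
      have hoth : ∀ k, k ≠ k0 → d k ≤ 2 → τ - y k0 < y k := by
        intro k hk hk2
        have h1 := hJ {k0, k} (by
          rw [sum_pair (Ne.symm hk)]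
          have := hd1 k
          omega)
        rw [sum_pair (Ne.symm hk)] at h1
        linarith
      have hnn : ∀ k, k ≠ k0 → 0 ≤ y k - (wt (d k) : ℝ) * τ / 2 := by
        intro k hk
        rcases Nat.lt_or_ge (d k) 3 with h | h
        · rw [hw k (by omega)]
          have := hoth k hk (by omega)
          linarith
        · exact hG k h
      rw [← add_sum_erase univ _ (mem_univ k0),
        ← add_sum_erase (univ.erase k0) _ (mem_erase.mpr ⟨hne, mem_univ l0⟩)]
      have h1 : 0 ≤ ∑ k ∈ (univ.erase k0).erase l0, (y k - (wt (d k) : ℝ) * τ / 2) := by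
        refine sum_nonneg fun k hk => ?_
        exact hnn k (ne_of_mem_erase (mem_of_mem_erase hk))
      have h2 := hoth l0 hne (by omega)
      rw [hw k0 (by omega), hw l0 (by omega)]
      linarith
  rw [sum_sub_distrib] at key
  have e : ∑ k, (wt (d k) : ℝ) * τ / 2 = ((∑ k, wt (d k) : ℕ) : ℝ) * τ / 2 := by
    push_cast
    rw [sum_mul, sum_div]
  linarith

/-- a form of degree one -/
theorem hom_one (f : ℤ[X]) (a b : ℤ) : hom f 1 a b = f.coeff 1 * a + f.coeff 0 * b := by
  unfold hom
  rw [sum_range_succ, sum_range_one]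
  ring

/-- linear forms without a common factor are not proportional -/
theorem res_ne (f g : ℤ[X]) (hf : f.natDegree ≤ 1) (hg : g.natDegree ≤ 1)
    (h : Sqf (f * g) 2) : f.coeff 1 * g.coeff 0 - g.coeff 1 * f.coeff 0 ≠ 0 := by
  obtain ⟨hsq, -, hdeg⟩ := h
  intro h0
  have hinj : Function.Injective (Int.castRingHom ℚ) := by
    intro x y hxy
    simpa using hxy
  have hne : f * g ≠ 0 := by
    intro h1
    rw [h1, Polynomial.map_zero] at hsq
    exact not_squarefree_zero hsq
  have hf0 : f ≠ 0 := left_ne_zero_of_mul hne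
  have hg0 : g ≠ 0 := right_ne_zero_of_mul hne
  have ef : f = C (f.coeff 1) * X + C (f.coeff 0) := eq_X_add_C_of_natDegree_le_one hf
  have eg : g = C (g.coeff 1) * X + C (g.coeff 0) := eq_X_add_C_of_natDegree_le_one hg
  have hdeg' : 1 ≤ (f * g).natDegree := by omega
  rw [natDegree_mul hf0 hg0] at hdeg'
  by_cases hu : f.coeff 1 = 0
  · have h1 : g.coeff 1 * f.coeff 0 = 0 := by
      rw [hu] at h0
      linarith
    have hf2 : f.coeff 0 ≠ 0 := by
      intro h2
      apply hf0
      rw [ef, hu, h2]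
      simp
    have hg2 : g.coeff 1 = 0 := (mul_eq_zero.mp h1).resolve_right hf2
    have d1 : f.natDegree = 0 := by
      rw [ef, hu]
      simp
    have d2 : g.natDegree = 0 := by
      rw [eg, hg2]
      simp
    omega
  · have hgu : g.coeff 1 ≠ 0 := by
      intro h2
      rw [h2] at h0
      have h3 : g.coeff 0 = 0 := by
        have : f.coeff 1 * g.coeff 0 = 0 := by linarith
        exact (mul_eq_zero.mp this).resolve_left hu
      apply hg0
      rw [eg, h2, h3]
      simp
    have e1 : C (f.coeff 1) * g = C (g.coeff 1) * f := by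
      rw [eg, ef]
      simp only [coeff_add, coeff_C_mul, coeff_X_one, coeff_C_succ, coeff_C_zero, coeff_X_zero,
        mul_one, mul_zero, add_zero, zero_add, coeff_C_ne_zero one_ne_zero]
      rw [mul_add, mul_add, ← mul_assoc, ← mul_assoc, ← C_mul, ← C_mul, ← C_mul, ← C_mul,
        mul_comm (g.coeff 1) (f.coeff 1)]
      congr 2
      linarith
    have e2 : C ((f.coeff 1 : ℚ)) * g.map (Int.castRingHom ℚ) =
        C ((g.coeff 1 : ℚ)) * f.map (Int.castRingHom ℚ) := by
      have := congrArg (Polynomial.map (Int.castRingHom ℚ)) e1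
      rw [Polynomial.map_mul, Polynomial.map_mul, Polynomial.map_C, Polynomial.map_C] at this
      simpa using this
    have hfu : ((f.coeff 1 : ℤ) : ℚ) ≠ 0 := by exact_mod_cast hu
    have e3 : g.map (Int.castRingHom ℚ) =
        C ((g.coeff 1 : ℚ) / (f.coeff 1 : ℚ)) * f.map (Int.castRingHom ℚ) := by
      have h5 : C ((f.coeff 1 : ℚ))⁻¹ * (C ((f.coeff 1 : ℚ)) * g.map (Int.castRingHom ℚ)) =
          C ((f.coeff 1 : ℚ))⁻¹ * (C ((g.coeff 1 : ℚ)) * f.map (Int.castRingHom ℚ)) := by
        rw [e2]
      rw [← mul_assoc, ← C_mul, inv_mul_cancel₀ hfu, C_1, one_mul, ← mul_assoc, ← C_mul] at h5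
      rw [h5, div_eq_inv_mul]
    have h6 : IsUnit (f.map (Int.castRingHom ℚ)) := by
      apply hsq
      rw [Polynomial.map_mul, e3]
      exact ⟨C ((g.coeff 1 : ℚ) / (f.coeff 1 : ℚ)), by ring⟩
    have h7 := natDegree_eq_zero_of_isUnit h6
    rw [natDegree_map_eq_of_injective hinj] at h7
    have h8 : 1 ≤ f.natDegree := le_natDegree_of_ne_zero hu
    omega

end Pool.Agent.X100.Mx
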