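import Pool.Agent.X100.Mx.Core

/-!
# Pairs of any height where the radical of a form is small: three or more linear factors
-/

set_option autoImplicit false

namespace Pool.Agent.X100.Mx

open Finset Polynomial Pool.Agent.W4.CF Pool.Agent.W4.VC Pool.Agent.TH498.KB Pool.Agent.TH498.HF
open Pool.Agent.TH867.SQ (lr)
open Pool.Agent.TH867.QF (Fm va ev Pt)

theorem lr_le (M n : ℕ) (hM : M ≠ 0) : lr n ≤ Real.log (radp M n) + lr M := by
  unfold lr radp
  rw [Nat.cast_prod, Real.log_prod (fun p hp => by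
    have := (Nat.prime_of_mem_primeFactors (mem_filter.mp hp).1).ne_zero
    exact_mod_cast this)]
  rw [← sum_filter_add_sum_filter_not n.primeFactors (fun p => ¬ p ∣ M)]
  refine add_le_add le_rfl ?_
  refine sum_le_sum_of_subset_of_nonneg ?_ fun p _ _ => Real.log_natCast_nonneg p
  intro p hp
  obtain ⟨h1, h2⟩ := mem_filter.mp hp
  exact Nat.mem_primeFactors.mpr ⟨Nat.prime_of_mem_primeFactors h1, not_not.mp h2, hM⟩

/-- **Three or more linear factors.** Let `F k`, `k ∈ ι`, be the factors of a form without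
multiple factors, `d k ≥ 1` their degrees. If at least three are linear, then there are
`O(R ^ (2 / W) (1 + log R) ^ e)` coprime pairs, of any height, where the radical of the form is at
most `R`; here `W` is the number of the factors, those of degree at least three counted twice. -/
theorem mixed {ι : Type} [Fintype ι] [DecidableEq ι] (F : ι → ℤ[X]) (d : ι → ℕ)
    (hd : ∀ k, (F k).natDegree ≤ d k) (hd1 : ∀ k, 1 ≤ d k)
    (hsq : Sqf (∏ k, F k) (∑ k, d k)) (h3 : 3 ≤ (univ.filter (fun k => d k = 1)).card)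
    (m : ℕ) (hm : 1 ≤ m) :
    ∃ (C : ℝ) (e : ℕ), 0 < C ∧ ∀ R : ℝ, 1 ≤ R → ∀ s : Finset (ℤ × ℤ),
      (∀ p ∈ s, IsCoprime p.1 p.2 ∧
        hom (∏ k, F k) (∑ k, d k) p.1 p.2 ≠ 0 ∧
        (radp m (hom (∏ k, F k) (∑ k, d k) p.1 p.2).natAbs : ℝ) ≤ R) →
      (s.card : ℝ) ≤ C * R ^ ((2 : ℝ) / ((∑ k, wt (d k) : ℕ) : ℝ)) * (1 + Real.log R) ^ e := by
  classical
  -- every subset gives a form without multiple factors
  have hsub : ∀ J : Finset ι, Sqf (∏ k ∈ J, F k) (∑ k ∈ J, d k) ∧ ∃ M : ℕ, 1 ≤ M ∧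
      ∀ a b : ℤ, IsCoprime a b → ∀ p : ℕ, p.Prime →
        (p : ℤ) ∣ ∏ k ∈ J, hom (F k) (d k) a b → (p : ℤ) ∣ ∏ k ∈ Jᶜ, hom (F k) (d k) a b →
        p ∣ M := by
    intro J
    have h1 : (∏ k ∈ J, F k) * (∏ k ∈ Jᶜ, F k) = ∏ k, F k := prod_mul_prod_compl J F
    have h2 : (∑ k ∈ J, d k) + (∑ k ∈ Jᶜ, d k) = ∑ k, d k := sum_add_sum_compl J d
    have hp := fun (K : Finset ι) (a b : ℤ) => hom_prod K F d (fun i _ => hd i) a b
    have h3 := Pool.Agent.W290.VC.t_RES (∏ k ∈ J, F k) (∏ k ∈ Jᶜ, F k) (∑ k ∈ J, d k)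
      (∑ k ∈ Jᶜ, d k) (hp J 0 0).1 (hp Jᶜ 0 0).1 (by rw [h1, h2]; exact hsq)
    obtain ⟨a1, -, M, hM, h4⟩ := h3
    refine ⟨a1, M, hM, ?_⟩
    intro a b hab p hpp x1 x2
    rw [← (hp J a b).2] at x1
    rw [← (hp Jᶜ a b).2] at x2
    exact h4 a b hab p hpp x1 x2
  choose hS M hM hMp using hsub
  set M0 : ℕ := ∏ k : ι, M {k} with hM0
  have hM01 : 1 ≤ M0 := by
    rw [hM0]
    exact Nat.one_le_iff_ne_zero.mpr (prod_ne_zero_iff.mpr fun k _ => by
      have := hM {k}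
      omega)
  have hmM : 1 ≤ m * M0 := Nat.one_le_iff_ne_zero.mpr (by
    have : m ≠ 0 := by omega
    have : M0 ≠ 0 := by omega
    positivity)
  -- the linear forms
  set Ls : Finset ι := univ.filter (fun k => d k = 1) with hLs
  obtain ⟨r, hr⟩ : ∃ r : ℕ, Ls.card = r + 3 := ⟨Ls.card - 3, by omega⟩
  obtain ⟨eqv⟩ : Nonempty (Fin (r + 3) ≃ Ls) := ⟨(Ls.equivFinOfCardEq hr).symm⟩
  have hdL : ∀ i, d (eqv i) = 1 := fun i => (mem_filter.mp (eqv i).2).2
  have hres : ∀ i j : Fin (r + 3), i ≠ j →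
      (F (eqv i)).coeff 1 * (F (eqv j)).coeff 0 - (F (eqv j)).coeff 1 * (F (eqv i)).coeff 0 ≠ 0 := by
    intro i j hij
    have hne : (eqv i : ι) ≠ eqv j := fun h => hij (eqv.injective (Subtype.ext h))
    have h1 := hS {(eqv i : ι), (eqv j : ι)}
    rw [prod_pair hne, sum_pair hne, hdL, hdL] at h1
    exact res_ne _ _ ((hd _).trans (hdL i).le) ((hd _).trans (hdL j).le) h1
  let L : Fm (r + 3) := ⟨fun i => (F (eqv i)).coeff 1, fun i => (F (eqv i)).coeff 0, hres⟩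
  have hev : ∀ (p : ℤ × ℤ) (i : Fin (r + 3)), ev L p i = hom (F (eqv i)) (d (eqv i)) p.1 p.2 := by
    intro p i
    rw [hdL, hom_one]
    rfl
  obtain ⟨DL, hDL, hline⟩ := Pool.Agent.Y679.Kf.line_tot L
  have hr3 : (0 : ℝ) < (r : ℝ) + 3 := by positivity
  -- the blocks
  have hsm := fun J : {J : Finset ι // 3 ≤ ∑ k ∈ J, d k} =>
    TMsum (∏ k ∈ J.1, F k) (∑ k ∈ J.1, d k) (hS J.1) J.2 (m * M0) hmM
  choose D e hD hDs using hsm
  set W : ℕ := ∑ k, wt (d k) with hW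
  have hW0 : (0 : ℝ) < (W : ℝ) := by
    obtain ⟨l0, hl0⟩ := card_pos.mp (by omega : 0 < Ls.card)
    have h1 : 0 < wt (d l0) := by
      unfold wt
      split_ifs <;> norm_num
    have h2 : wt (d l0) ≤ W := single_le_sum (f := fun k => wt (d k)) (fun _ _ => Nat.zero_le _)
      (mem_univ l0)
    exact_mod_cast lt_of_lt_of_le h1 h2
  set e0 : ℕ := ∑ J, e J with he0
  set G : ℝ := 1 + 2 / (W : ℝ) with hG
  have hG1 : 1 ≤ G := by
    have : 0 ≤ 2 / (W : ℝ) := by positivity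
    linarith
  set Q : ℝ := Real.exp (((r : ℝ) + 3) * lr (m * M0)) ^ (2 / ((r : ℝ) + 3)) with hQ
  have hQ0 : 0 < Q := by rw [hQ]; positivity
  have hsD : 0 ≤ ∑ J, D J := sum_nonneg fun J _ => (hD J).le
  refine ⟨(∑ J, D J) * G ^ e0 + DL * Q, e0, by positivity, ?_⟩
  intro R hR s hs
  set T : ℝ := R ^ ((2 : ℝ) / (W : ℝ)) with hT
  have hR0 : 0 < R := by linarith
  have hT0 : 0 < T := by rw [hT]; positivity
  have hT1 : 1 ≤ T := Real.one_le_rpow hR (by positivity)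
  have hlogR : 0 ≤ Real.log R := Real.log_nonneg hR
  have hlogT : Real.log T = 2 / (W : ℝ) * Real.log R := by rw [hT, Real.log_rpow hR0]
  have hlogT0 : 0 ≤ Real.log T := Real.log_nonneg hT1
  -- the values
  let x : ℤ × ℤ → ι → ℕ := fun p k => radp (m * M0) (hom (F k) (d k) p.1 p.2).natAbs
  have hx1 : ∀ p k, (1 : ℝ) ≤ (x p k : ℝ) := fun p k => by exact_mod_cast radp_pos _ _
  have hval : ∀ p ∈ s, (∀ k, hom (F k) (d k) p.1 p.2 ≠ 0) ∧ ((∏ k, x p k : ℕ) : ℝ) ≤ R := by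
    intro p hp
    obtain ⟨hcop, b3, b4⟩ := hs p hp
    have hh := (hom_prod univ F d (fun i _ => hd i) p.1 p.2).2
    rw [hh] at b3 b4
    have hne : ∀ k, hom (F k) (d k) p.1 p.2 ≠ 0 := fun k => prod_ne_zero_iff.mp b3 k (mem_univ k)
    refine ⟨hne, ?_⟩
    refine le_trans ?_ b4
    have e1 : (∏ k, hom (F k) (d k) p.1 p.2).natAbs = ∏ k, (hom (F k) (d k) p.1 p.2).natAbs :=
      map_prod Int.natAbsHom _ _
    rw [e1]
    have e2 : ∏ k, radp (m * M0) (hom (F k) (d k) p.1 p.2).natAbs ≤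
        radp (m * M0) (∏ k, (hom (F k) (d k) p.1 p.2).natAbs) := by
      apply prod_radp_le
      · intro k
        exact Int.natAbs_ne_zero.mpr (hne k)
      · intro k k' hkk' q hq q1 q2
        have f1 : (q : ℤ) ∣ ∏ l ∈ ({k} : Finset ι), hom (F l) (d l) p.1 p.2 := by
          rw [prod_singleton]
          exact Int.natCast_dvd.mpr q1
        have f2 : (q : ℤ) ∣ ∏ l ∈ ({k} : Finset ι)ᶜ, hom (F l) (d l) p.1 p.2 := by
          refine (Int.natCast_dvd.mpr q2).trans (dvd_prod_of_mem _ ?_)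
          rw [mem_compl, mem_singleton]
          exact Ne.symm hkk'
        have f3 := hMp {k} p.1 p.2 hcop q hq f1 f2
        exact (f3.trans (dvd_prod_of_mem (fun k => M {k}) (mem_univ k))).mul_left m
    exact_mod_cast e2.trans (radp_mono_left m M0 _)
  have hblock : ∀ p ∈ s, ∀ J : Finset ι,
      (radp (m * M0) (hom (∏ k ∈ J, F k) (∑ k ∈ J, d k) p.1 p.2).natAbs : ℝ) ≤
        ((∏ k ∈ J, x p k : ℕ) : ℝ) := by
    intro p hp J
    rw [(hom_prod J F d (fun i _ => hd i) p.1 p.2).2]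
    have e1 : (∏ k ∈ J, hom (F k) (d k) p.1 p.2).natAbs =
        ∏ k ∈ J, (hom (F k) (d k) p.1 p.2).natAbs := map_prod Int.natAbsHom _ _
    rw [e1]
    exact_mod_cast radp_prod_le (m * M0) J _ (fun k _ => Int.natAbs_ne_zero.mpr ((hval p hp).1 k))
  have hlogprod : ∀ p (J : Finset ι), Real.log ((∏ k ∈ J, x p k : ℕ) : ℝ) =
      ∑ k ∈ J, Real.log (x p k : ℝ) := by
    intro p J
    rw [Nat.cast_prod, Real.log_prod]
    intro k _
    have := hx1 p k
    linarith
  have hex : ∀ p ∈ s, (∃ J : {J : Finset ι // 3 ≤ ∑ k ∈ J, d k},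
      (radp (m * M0) (hom (∏ k ∈ J.1, F k) (∑ k ∈ J.1, d k) p.1 p.2).natAbs : ℝ) ≤ T) ∨
      ∑ k ∈ Ls, Real.log (x p k : ℝ) ≤ (Ls.card : ℝ) * Real.log T / 2 := by
    intro p hp
    obtain ⟨hne, hle⟩ := hval p hp
    by_contra hcon
    push Not at hcon
    obtain ⟨hc1, hc2⟩ := hcon
    have h1 := lp d hd1 (by rw [← hLs]; omega) (fun k => Real.log (x p k : ℝ)) (Real.log T)
      (fun J hJ => by
        have h2 := lt_of_lt_of_le (hc1 ⟨J, hJ⟩) (hblock p hp J)
        have h3 := Real.log_lt_log hT0 h2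
        rwa [hlogprod] at h3) hc2
    have h2 : Real.log ((∏ k, x p k : ℕ) : ℝ) ≤ Real.log R := by
      apply Real.log_le_log _ hle
      have : (0 : ℝ) < ∏ k, (x p k : ℝ) := prod_pos fun k _ => lt_of_lt_of_le one_pos (hx1 p k)
      push_cast
      exact this
    rw [hlogprod] at h2
    rw [← hW, hlogT] at h1
    have h4 : (W : ℝ) * (2 / (W : ℝ) * Real.log R) / 2 = Real.log R := by field_simp
    rw [h4] at h1
    linarith
  have hcover : s ⊆ (univ.biUnion (fun J : {J : Finset ι // 3 ≤ ∑ k ∈ J, d k} =>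
      s.filter (fun p => (radp (m * M0)
        (hom (∏ k ∈ J.1, F k) (∑ k ∈ J.1, d k) p.1 p.2).natAbs : ℝ) ≤ T))) ∪
      s.filter (fun p => ∑ k ∈ Ls, Real.log (x p k : ℝ) ≤ (Ls.card : ℝ) * Real.log T / 2) := by
    intro p hp
    rcases hex p hp with ⟨J, hJ⟩ | h
    · exact mem_union_left _ (mem_biUnion.mpr ⟨J, mem_univ J, mem_filter.mpr ⟨hp, hJ⟩⟩)
    · exact mem_union_right _ (mem_filter.mpr ⟨hp, h⟩)
  have hlT : 1 + Real.log T ≤ G * (1 + Real.log R) := by
    rw [hlogT, hG]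
    have : 0 ≤ 2 / (W : ℝ) := by positivity
    nlinarith
  have hlT1 : 1 ≤ 1 + Real.log T := by linarith
  have hb : ∀ J : {J : Finset ι // 3 ≤ ∑ k ∈ J, d k}, ((s.filter (fun p => (radp (m * M0)
        (hom (∏ k ∈ J.1, F k) (∑ k ∈ J.1, d k) p.1 p.2).natAbs : ℝ) ≤ T)).card : ℝ) ≤
      D J * T * (G * (1 + Real.log R)) ^ e0 := by
    intro J
    have h1 := hDs J T hT1 (s.filter (fun p => (radp (m * M0)
        (hom (∏ k ∈ J.1, F k) (∑ k ∈ J.1, d k) p.1 p.2).natAbs : ℝ) ≤ T)) (by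
      intro p hp
      rw [mem_filter] at hp
      obtain ⟨hcop, b3, b4⟩ := hs p hp.1
      refine ⟨hcop, ?_, hp.2⟩
      rw [(hom_prod J.1 F d (fun i _ => hd i) p.1 p.2).2]
      exact prod_ne_zero_iff.mpr fun k _ => (hval p hp.1).1 k)
    refine h1.trans ?_
    have h2 : (1 + Real.log T) ^ e J ≤ (G * (1 + Real.log R)) ^ e0 := by
      calc (1 + Real.log T) ^ e J ≤ (1 + Real.log T) ^ e0 :=
            pow_le_pow_right₀ hlT1 (single_le_sum (f := e) (fun _ _ => Nat.zero_le _) (mem_univ J))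
        _ ≤ _ := pow_le_pow_left₀ (by linarith) hlT _
    exact mul_le_mul_of_nonneg_left h2 (mul_nonneg (hD J).le hT0.le)
  have hl : ((s.filter (fun p => ∑ k ∈ Ls, Real.log (x p k : ℝ) ≤
      (Ls.card : ℝ) * Real.log T / 2)).card : ℝ) ≤ DL * (Q * T) := by
    have hE1 : 1 ≤ Real.exp (((r : ℝ) + 3) * lr (m * M0)) := by
      apply Real.one_le_exp
      have := Pool.Agent.TH867.SQ.lr_nonneg (m * M0)
      positivity
    have hY1 : 1 ≤ Real.exp (((r : ℝ) + 3) * lr (m * M0)) * T ^ (((r : ℝ) + 3) / 2) :=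
      one_le_mul_of_one_le_of_one_le hE1 (Real.one_le_rpow hT1 (by positivity))
    have h1 := hline (Real.exp (((r : ℝ) + 3) * lr (m * M0)) * T ^ (((r : ℝ) + 3) / 2)) hY1
      (s.filter (fun p => ∑ k ∈ Ls, Real.log (x p k : ℝ) ≤ (Ls.card : ℝ) * Real.log T / 2)) (by
      intro p hp
      obtain ⟨hp1, hp2⟩ := mem_filter.mp hp
      refine ⟨⟨(hs p hp1).1, fun i => ?_⟩, ?_⟩
      · rw [hev]
        exact (hval p hp1).1 _
      · have h2 : ∀ i : Fin (r + 3), lr (va L p i) ≤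
            Real.log (x p (eqv i) : ℝ) + lr (m * M0) := by
          intro i
          have h3 := lr_le (m * M0) (va L p i) (by omega)
          have h4 : va L p i = (hom (F (eqv i)) (d (eqv i)) p.1 p.2).natAbs := by
            unfold va
            rw [hev]
          rw [h4] at h3 ⊢
          exact h3
        refine (sum_le_sum fun i _ => h2 i).trans ?_
        rw [sum_add_distrib, sum_const, card_univ, Fintype.card_fin, nsmul_eq_mul,
          Real.log_mul (by positivity) (by positivity), Real.log_exp, Real.log_rpow hT0]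
        have h5 : ∑ i : Fin (r + 3), Real.log (x p (eqv i) : ℝ) =
            ∑ k ∈ Ls, Real.log (x p k : ℝ) := by
          rw [← sum_coe_sort Ls (fun k => Real.log (x p k : ℝ))]
          exact Equiv.sum_comp eqv (fun k : Ls => Real.log (x p k : ℝ))
        rw [h5]
        rw [hr] at hp2
        push_cast at hp2 ⊢
        linarith)
    refine h1.trans (le_of_eq ?_)
    rw [Real.mul_rpow (by positivity) (by positivity), ← Real.rpow_mul hT0.le]
    have e : ((r : ℝ) + 3) / 2 * (2 / ((r : ℝ) + 3)) = 1 := by field_simp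
    rw [e, Real.rpow_one]
  calc (s.card : ℝ) ≤ (((univ.biUnion (fun J : {J : Finset ι // 3 ≤ ∑ k ∈ J, d k} =>
      s.filter (fun p => (radp (m * M0)
        (hom (∏ k ∈ J.1, F k) (∑ k ∈ J.1, d k) p.1 p.2).natAbs : ℝ) ≤ T))) ∪
      s.filter (fun p => ∑ k ∈ Ls, Real.log (x p k : ℝ) ≤
        (Ls.card : ℝ) * Real.log T / 2)).card : ℝ) := by
        exact_mod_cast card_le_card hcover
    _ ≤ ((univ.biUnion (fun J : {J : Finset ι // 3 ≤ ∑ k ∈ J, d k} =>
      s.filter (fun p => (radp (m * M0)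
        (hom (∏ k ∈ J.1, F k) (∑ k ∈ J.1, d k) p.1 p.2).natAbs : ℝ) ≤ T))).card : ℝ) +
      ((s.filter (fun p => ∑ k ∈ Ls, Real.log (x p k : ℝ) ≤
        (Ls.card : ℝ) * Real.log T / 2)).card : ℝ) := by exact_mod_cast card_union_le _ _
    _ ≤ (∑ J : {J : Finset ι // 3 ≤ ∑ k ∈ J, d k}, D J * T * (G * (1 + Real.log R)) ^ e0) +
        DL * (Q * T) := by
        refine add_le_add ?_ hl
        refine le_trans ?_ (sum_le_sum fun J _ => hb J)
        exact_mod_cast card_biUnion_le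
    _ ≤ ((∑ J, D J) * G ^ e0 + DL * Q) * T * (1 + Real.log R) ^ e0 := by
        rw [← sum_mul, ← sum_mul, mul_pow]
        have h1 : 1 ≤ (1 + Real.log R) ^ e0 := one_le_pow₀ (by linarith)
        have h2 : DL * (Q * T) ≤ DL * (Q * T) * (1 + Real.log R) ^ e0 :=
          le_mul_of_one_le_right (by positivity) h1
        calc _ ≤ (∑ J, D J) * T * (G ^ e0 * (1 + Real.log R) ^ e0) +
            DL * (Q * T) * (1 + Real.log R) ^ e0 := add_le_add le_rfl h2
          _ = _ := by ring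

end Pool.Agent.X100.Mx
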